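import Mathlib
import Pool.Agent.H55.KR

/-! A closed subgroup of a `k_ℝ`-group that is not a `k_ℝ`-space. -/

namespace Pool.Agent.Results.MP_ebea7e_gt.Counter

open Set Filter Topology Pool.Agent.H55.KR

abbrev D : Type := ℕ →₀ ℤ

abbrev I : Type := {A : Set ℕ // A ∈ hyperfilter ℕ}

def H : AddSubgroup (I → D) where
  carrier := {t | (∀ A : I, ∀ n ∈ A.1, t A n = 0) ∧
    ∀ (A B : I) (n : ℕ), n ∉ A.1 → n ∉ B.1 → t A n = t B n}
  zero_mem' := ⟨fun _ _ _ => rfl, fun _ _ _ _ _ => rfl⟩
  add_mem' := fun hs ht => ⟨fun A n h => by simp [hs.1 A n h, ht.1 A n h],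
    fun A B n h h' => by simp [hs.2 A B n h h', ht.2 A B n h h']⟩
  neg_mem' := fun hs => ⟨fun A n h => by simp [hs.1 A n h],
    fun A B n h h' => by simp [hs.2 A B n h h']⟩

theorem fin_of {T : Set ℕ} (h : ∀ A ∈ hyperfilter ℕ, (T \ A).Finite) : T.Finite := by
  by_contra hT
  let e := Set.Infinite.natEmbedding T hT
  have he : Function.Injective fun k => (e k).1 := Subtype.val_injective.comp e.injective
  rcases (hyperfilter ℕ).mem_or_compl_mem (range fun k => (e (2 * k)).1) with h1 | h1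
  · refine infinite_of_injective_forall_mem (f := fun k => (e (2 * k + 1)).1)
      (fun a b hab => by simpa using he hab) (fun k => (mem_sdiff _).2 ⟨(e _).2, ?_⟩) (h _ h1)
    rintro ⟨j, hj⟩
    have := he hj
    omega
  · refine infinite_of_injective_forall_mem (f := fun k => (e (2 * k)).1)
      (fun a b hab => by simpa using he hab) (fun k => (mem_sdiff _).2 ⟨(e _).2, ?_⟩) (h _ h1)
    exact fun h => h ⟨k, rfl⟩

theorem result : ∃ (G : Type) (_ : AddCommGroup G) (_ : TopologicalSpace G),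
    IsTopologicalAddGroup G ∧ T2Space G ∧ IsKR G ∧
      ∃ H : AddSubgroup G, IsClosed (H : Set G) ∧ ¬ IsKR H := by
  classical
  let _ : TopologicalSpace D := ⊥
  have : DiscreteTopology D := ⟨rfl⟩
  refine ⟨I → D, inferInstance, inferInstance, inferInstance, inferInstance, KR_pi, H, ?_,
    fun h => ?_⟩
  · have hc : ∀ (A : I) (n : ℕ), Continuous fun t : I → D => t A n := fun A n =>
      (continuous_of_discreteTopology (f := fun s : D => s n)).comp (continuous_apply A)
    change IsClosed ({t : I → D | ∀ A : I, ∀ n ∈ A.1, t A n = 0} ∩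
      {t | ∀ (A B : I) (n : ℕ), n ∉ A.1 → n ∉ B.1 → t A n = t B n})
    simp only [ofPred_forall]
    exact (isClosed_iInter fun A => isClosed_iInter fun n => isClosed_iInter fun _ =>
      isClosed_eq (hc A n) continuous_const).inter (isClosed_iInter fun A => isClosed_iInter
        fun B => isClosed_iInter fun n => isClosed_iInter fun _ => isClosed_iInter fun _ =>
          isClosed_eq (hc A n) (hc B n))
  have hfin : ∀ K : Set H, IsCompact K → K.Finite := fun K hK => by
    have h1 : ∀ A : I, ((fun t : H => t.1 A) '' K).Finite := fun A =>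
      (hK.image ((continuous_apply A).comp continuous_subtype_val)).finite_of_discrete
    have h2 : {n | ∃ t ∈ K, ∃ B : I, t.1 B n ≠ 0}.Finite := fin_of fun A hA => by
      refine ((h1 ⟨A, hA⟩).biUnion fun s _ => s.support.finite_toSet).subset ?_
      rintro n ⟨⟨t, ht, B, h3⟩, h4⟩
      refine mem_iUnion₂.2 ⟨_, ⟨t, ht, rfl⟩, Finsupp.mem_support_iff.2 ?_⟩
      rwa [t.2.2 ⟨A, hA⟩ B n h4 fun h5 => h3 (t.2.1 B n h5)]
    refine Finite.of_finite_image (h1 ⟨_, h2.compl_mem_hyperfilter⟩) fun s hs t ht e => ?_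
    refine Subtype.ext (funext fun B => Finsupp.ext fun n => ?_)
    by_cases h3 : n ∈ B.1
    · rw [s.2.1 B n h3, t.2.1 B n h3]
    by_cases h4 : n ∈ {n | ∃ t ∈ K, ∃ B : I, t.1 B n ≠ 0}
    · rw [s.2.2 B ⟨_, h2.compl_mem_hyperfilter⟩ n h3 (not_not.2 h4),
        t.2.2 B ⟨_, h2.compl_mem_hyperfilter⟩ n h3 (not_not.2 h4)]
      exact DFunLike.congr_fun e n
    · have h5 : ∀ t ∈ K, t.1 B n = 0 := fun t ht => by
        by_contra h5
        exact h4 ⟨t, ht, B, h5⟩
      rw [h5 s hs, h5 t ht]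
  have h1 := h (fun t => if t = 0 then 0 else 1) fun K hK => (hfin K hK).continuousOn _
  obtain ⟨O, hO, e⟩ := isOpen_induced_iff.1 ((isOpen_Iio (a := (1 : ℝ))).preimage h1)
  have h0 : (0 : H) ∈ Subtype.val ⁻¹' O := by
    rw [e]
    simp
  obtain ⟨s, u, h2, h3⟩ := isOpen_pi_iff.1 hO 0 h0
  obtain ⟨n, hn⟩ := (hyperfilter ℕ).nonempty_of_mem
    ((biInter_finset_mem (f := (hyperfilter ℕ : Filter ℕ)) s).2 fun A _ => A.2)
  let t : H := ⟨fun A => if n ∈ A.1 then 0 else Finsupp.single n 1, fun A m hm => by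
    beta_reduce
    split_ifs with h4
    · rfl
    · exact Finsupp.single_eq_of_ne (by rintro rfl; exact h4 hm), fun A B m hA hB => by
    by_cases h4 : m = n
    · subst h4
      simp [hA, hB]
    · beta_reduce
      split_ifs <;> simp [Finsupp.single_eq_of_ne h4]⟩
  have h4 : t ∈ Subtype.val ⁻¹' O := h3 fun A hA => by
    have : t.1 A = 0 := if_pos (mem_iInter₂.1 hn A hA)
    rw [this]
    exact (h2 A hA).2
  have h5 : t ≠ 0 := fun h5 => by
    have := congrArg (fun t : H => t.1 ⟨_, (finite_singleton n).compl_mem_hyperfilter⟩ n) h5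
    simp [t] at this
  rw [e] at h4
  simp [h5] at h4

end Pool.Agent.Results.MP_ebea7e_gt.Counter
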